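import Pool.Agent.Helper10.LN.TwoZeros

/-! # LN-AI: from fields of constants to the integers -/

set_option autoImplicit false

open MvPolynomial

namespace Pool.Agent.Helper10.LN

open scoped BigOperators
open Pool.Agent.Helper8.LG Pool.Agent.Helper10.LB

/-- **Arithmetic bases**: the lines with infinitely many integral points over a ring of finite type
over the integers meet the divisors in at most two points. -/
theorem arith_input {k₀ M : Type*} [Field k₀] [Field M] [CharZero M] [Algebra k₀ M] {N r : ℕ}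
    (d : Fin r → ℕ) (F : Fin r → MvPolynomial (Fin (N + 1)) M) (hF : ∀ i, (F i).IsHomogeneous (d i))
    (I : Finset (Fin r)) (Q' : (Fin (N + 1) → M) → Prop)
    (R : Submodule M (Fin (N + 1) → M) → Prop)
    (hfin : ∀ A : Subalgebra k₀ M, A.FG → ∃ Λ' : Set (Submodule M (Fin (N + 1) → M)),
      Λ'.Finite ∧ (∀ W' ∈ Λ', Module.finrank M W' ≤ 2 ∧ R W') ∧ ∀ i₀ : Fin (N + 1),
        {y : Fin (N + 1) → M | y i₀ = 1 ∧ Q' y ∧ (∀ W' ∈ Λ', y ∉ W') ∧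
          ∀ i ∈ I, eval y (F i) ≠ 0 ∧
            ∀ J : Sym (Fin (N + 1)) (d i), mon y J / eval y (F i) ∈ A}.Finite)
    (A : Subalgebra ℤ M) (hA : A.FG) :
    ∃ Λ' : Set (Submodule M (Fin (N + 1) → M)),
      Λ'.Finite ∧ (∀ W' ∈ Λ', Module.finrank M W' ≤ 2 ∧ (R W' ∧ TwoZeros F I W')) ∧
      ∀ i₀ : Fin (N + 1),
        {y : Fin (N + 1) → M | y i₀ = 1 ∧ Q' y ∧ (∀ W' ∈ Λ', y ∉ W') ∧
          ∀ i ∈ I, eval y (F i) ≠ 0 ∧
            ∀ J : Sym (Fin (N + 1)) (d i), mon y J / eval y (F i) ∈ A}.Finite := by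
  classical
  obtain ⟨Λ', hΛ', hΛ2, hfin'⟩ := hfin (Algebra.adjoin k₀ (A : Set M)) (fa_adjoin_fg A hA)
  obtain ⟨S, hS⟩ : ∃ S : Submodule M (Fin (N + 1) → M) → Fin (N + 1) → Set (Fin (N + 1) → M),
      S = fun W' i₀ => {y : Fin (N + 1) → M | y i₀ = 1 ∧ y ∈ W' ∧ ∀ i ∈ I, eval y (F i) ≠ 0 ∧
        ∀ J : Sym (Fin (N + 1)) (d i), mon y J / eval y (F i) ∈ A} := ⟨_, rfl⟩
  refine ⟨{W' ∈ Λ' | ∃ i₀, (S W' i₀).Infinite}, hΛ'.subset fun W' h => h.1, ?_, ?_⟩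
  · rintro W' ⟨hW', i₀, hinf⟩
    refine ⟨(hΛ2 W' hW').1, (hΛ2 W' hW').2, ?_⟩
    rw [hS] at hinf
    exact twoZeros_of_infinite d F hF I A hA W' (hΛ2 W' hW').1 i₀ hinf
  · intro i₀
    have h1 : (⋃ W' ∈ {W' ∈ Λ' | (S W' i₀).Finite}, S W' i₀).Finite :=
      Set.Finite.biUnion (hΛ'.subset fun W' h => h.1) fun W' h => h.2
    refine ((hfin' i₀).union h1).subset ?_
    rintro y ⟨hy1, hyQ, hyΛ, hyF⟩
    by_cases hex : ∃ W' ∈ Λ', y ∈ W'
    · right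
      obtain ⟨W', hW', hyW⟩ := hex
      have h2 : (S W' i₀).Finite := by
        by_contra hinf
        exact hyΛ W' ⟨hW', i₀, hinf⟩ hyW
      refine Set.mem_biUnion (x := W') ⟨hW', h2⟩ ?_
      rw [hS]
      exact ⟨hy1, hyW, hyF⟩
    · left
      push Not at hex
      exact ⟨hy1, hyQ, hex, fun i hi => ⟨(hyF i hi).1, fun J =>
        Algebra.subset_adjoin ((hyF i hi).2 J)⟩⟩

end Pool.Agent.Helper10.LN
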