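import Pool.Agent.Helper10.LN.WrapCore2
import Pool.Agent.Helper10.LN.Points2
import Mathlib.LinearAlgebra.LinearIndependent.BaseChange

/-! # LN-LINES: a finite set and finitely many lines, from normalised points to sections -/

set_option autoImplicit false

open AlgebraicGeometry CategoryTheory CategoryTheory.Limits MvPolynomial

namespace Pool.Agent.Helper10.LN

open Pool.Agent.Helper8.LG
open scoped LinearAlgebra.Projectivization

attribute [local instance] MvPolynomial.gradedAlgebra

universe u v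

/-- The vectors `x` over `K` with `g⁻¹ x ∈ W'`. -/
def desc (K : Type*) {M : Type*} [Field K] [Field M] [Algebra K M] {N : ℕ}
    (g : GL (Fin (N + 1)) M) (W' : Submodule M (Fin (N + 1) → M)) :
    Submodule K (Fin (N + 1) → K) where
  carrier := {x | (g⁻¹ : GL (Fin (N + 1)) M).1.mulVec (fun l => algebraMap K M (x l)) ∈ W'}
  add_mem' := by
    intro x y hx hy
    have h1 := W'.add_mem hx hy
    rw [← Matrix.mulVec_add] at h1
    have h2 : (fun l => algebraMap K M ((x + y) l)) =
        (fun l => algebraMap K M (x l)) + fun l => algebraMap K M (y l) := by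
      funext l
      exact map_add _ _ _
    show (g⁻¹ : GL (Fin (N + 1)) M).1.mulVec (fun l => algebraMap K M ((x + y) l)) ∈ W'
    rw [h2]
    exact h1
  zero_mem' := by
    have h2 : (fun l => algebraMap K M ((0 : Fin (N + 1) → K) l)) = 0 := by
      funext l
      exact map_zero _
    show (g⁻¹ : GL (Fin (N + 1)) M).1.mulVec (fun l => algebraMap K M ((0 : Fin (N + 1) → K) l)) ∈ W'
    rw [h2, Matrix.mulVec_zero]
    exact W'.zero_mem
  smul_mem' := by
    intro c x hx
    have h1 := W'.smul_mem (algebraMap K M c) hx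
    rw [← Matrix.mulVec_smul] at h1
    have h2 : (fun l => algebraMap K M ((c • x) l)) =
        algebraMap K M c • fun l => algebraMap K M (x l) := by
      funext l
      exact map_mul _ _ _
    show (g⁻¹ : GL (Fin (N + 1)) M).1.mulVec (fun l => algebraMap K M ((c • x) l)) ∈ W'
    rw [h2]
    exact h1

theorem mem_desc {K M : Type*} [Field K] [Field M] [Algebra K M] {N : ℕ}
    {g : GL (Fin (N + 1)) M} {W' : Submodule M (Fin (N + 1) → M)} {x : Fin (N + 1) → K} :
    x ∈ desc K g W' ↔
      (g⁻¹ : GL (Fin (N + 1)) M).1.mulVec (fun l => algebraMap K M (x l)) ∈ W' :=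
  Iff.rfl

/-- the dimension does not increase -/
theorem finrank_desc_le {K M : Type*} [Field K] [Field M] [Algebra K M] {N : ℕ}
    (g : GL (Fin (N + 1)) M) (W' : Submodule M (Fin (N + 1) → M)) :
    Module.finrank K (desc K g W') ≤ Module.finrank M W' := by
  classical
  obtain ⟨n, hn⟩ : ∃ n, n = Module.finrank K (desc K g W') := ⟨_, rfl⟩
  let b := Module.finBasisOfFinrankEq K (desc K g W') hn.symm
  have h1 : LinearIndependent K (fun i => ((b i : desc K g W') : Fin (N + 1) → K)) :=
    b.linearIndependent.map' (desc K g W').subtype (Submodule.ker_subtype _)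
  have h2 : LinearIndependent M (fun i => algebraMap K M ∘ ((b i : desc K g W') : Fin (N + 1) → K)) :=
    linearIndependent_algebraMap_comp_iff.2 h1
  have h3 : LinearIndependent M (fun i => (g⁻¹ : GL (Fin (N + 1)) M).1.mulVec
      (algebraMap K M ∘ ((b i : desc K g W') : Fin (N + 1) → K))) := by
    have h4 : Function.Injective (Matrix.mulVecLin (g⁻¹ : GL (Fin (N + 1)) M).1) := by
      have h5 : Function.LeftInverse (fun y => (g : GL (Fin (N + 1)) M).1.mulVec y)
          (fun y => (g⁻¹ : GL (Fin (N + 1)) M).1.mulVec y) := by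
        intro y
        simp only
        rw [Matrix.mulVec_mulVec, ← Matrix.GeneralLinearGroup.coe_mul, mul_inv_cancel,
          Matrix.GeneralLinearGroup.coe_one, Matrix.one_mulVec]
      exact h5.injective
    exact h2.map' _ (LinearMap.ker_eq_bot.2 h4)
  have h5 : LinearIndependent M (fun i : Fin n => (⟨(g⁻¹ : GL (Fin (N + 1)) M).1.mulVec
      (algebraMap K M ∘ ((b i : desc K g W') : Fin (N + 1) → K)), (b i).2⟩ : W')) := by
    refine LinearIndependent.of_comp W'.subtype ?_
    exact h3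
  have h6 := h5.fintype_card_le_finrank
  rw [Fintype.card_fin] at h6
  omega

/-- the points of a subspace of dimension at most one -/
theorem finite_small {K : Type*} [Field K] {N : ℕ} (W : Submodule K (Fin (N + 1) → K))
    (hW : Module.finrank K W ≤ 1) :
    {x : ℙ K (Fin (N + 1) → K) | x.rep ∈ W}.Finite := by
  classical
  refine Set.Subsingleton.finite ?_
  intro x hx y hy
  obtain ⟨v, hv⟩ := finrank_le_one_iff.1 hW
  obtain ⟨a, ha⟩ := hv ⟨x.rep, hx⟩
  obtain ⟨b, hb⟩ := hv ⟨y.rep, hy⟩
  have ha' : a • (v : Fin (N + 1) → K) = x.rep := congrArg Subtype.val ha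
  have hb' : b • (v : Fin (N + 1) → K) = y.rep := congrArg Subtype.val hb
  have hb0 : b ≠ 0 := by
    rintro rfl
    rw [zero_smul] at hb'
    exact y.rep_nonzero hb'.symm
  rw [← x.mk_rep, ← y.mk_rep, Projectivization.mk_eq_mk_iff']
  refine ⟨a / b, ?_⟩
  rw [← ha', ← hb', smul_smul, div_mul_cancel₀ _ hb0]

set_option maxHeartbeats 400000 in
/-- **A finite set and finitely many lines**: from normalised points over `M` to sections. -/
theorem sections_lines {κ : Type*} [CommRing κ] {B : Scheme.{u}} [IsIntegral B]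
    [Algebra κ B.functionField]
    (V : B.Opens) [Nonempty V] (hV : IsAffineOpen V) (A₀ : Subalgebra κ B.functionField)
    (hA₀ : A₀.FG) (hVA : ∀ b : Γ(B, V), B.germToFunctionField V b ∈ A₀)
    {U : Scheme.{u}} (π : U ⟶ B) [IsSeparated π] [LocallyOfFiniteType π] [QuasiCompact π]
    {N r : ℕ} (d : Fin r → ℕ) (hd : ∀ i, 0 < d i)
    (F : Fin r → MvPolynomial (Fin (N + 1)) B.functionField)
    (hF : ∀ i, (F i).IsHomogeneous (d i))
    (f : genFib π ⟶ PN N B.functionField) (hf : f ≫ PN.toSpec N _ = pullback.snd _ _)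
    [LocallyQuasiFinite f] (W : Finset (Fin r))
    (hU : ∀ i ∈ W, ∀ z : genFib π, NonVanishing (f z) (F i))
    (M : Type v) [Field M] [Algebra B.functionField M] [Algebra κ M]
    [IsScalarTower κ B.functionField M] (g : GL (Fin (N + 1)) M)
    (Q' : (Fin (N + 1) → M) → Prop) (R : Submodule M (Fin (N + 1) → M) → Prop)
    (hfin : ∀ A : Subalgebra κ M, A.FG → ∃ Λ' : Set (Submodule M (Fin (N + 1) → M)),
      Λ'.Finite ∧ (∀ W' ∈ Λ', Module.finrank M W' ≤ 2 ∧ R W') ∧ ∀ i₀ : Fin (N + 1),
        {y : Fin (N + 1) → M | y i₀ = 1 ∧ Q' y ∧ (∀ W' ∈ Λ', y ∉ W') ∧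
          ∀ i ∈ W, eval y (subst (g : Matrix _ _ M) (F i)) ≠ 0 ∧
            ∀ J : Sym (Fin (N + 1)) (d i),
              mon y J / eval y (subst (g : Matrix _ _ M) (F i)) ∈ A}.Finite)
    (Q : (Fin (N + 1) → B.functionField) → Prop)
    (hQ : ∀ x, Q x → ∀ i₀,
      (g⁻¹ : GL (Fin (N + 1)) M).1.mulVec (fun l => algebraMap B.functionField M (x l)) i₀ ≠ 0 →
      Q' fun i => (g⁻¹ : GL (Fin (N + 1)) M).1.mulVec
        (fun l => algebraMap B.functionField M (x l)) i /
          (g⁻¹ : GL (Fin (N + 1)) M).1.mulVec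
            (fun l => algebraMap B.functionField M (x l)) i₀) :
    ∃ Λ : Set (Submodule B.functionField (Fin (N + 1) → B.functionField)), Λ.Finite ∧
      (∀ W ∈ Λ, Module.finrank B.functionField W = 2 ∧
        ∃ W' : Submodule M (Fin (N + 1) → M), R W' ∧ Module.finrank M W' ≤ 2 ∧
          W = desc B.functionField g W') ∧
      {σ : B ⟶ U | ∃ hσ : σ ≫ π = 𝟙 B, ∀ (t : Spec B.functionField)
        (x : Fin (N + 1) → B.functionField), IsCoord (f (genPt π σ hσ t)) x →
          Q x ∧ ∀ W ∈ Λ, x ∉ W}.Finite := by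
  classical
  obtain ⟨A, hA, hcore⟩ := wrap_core2 (κ := κ) V hV A₀ hA₀ hVA π d hd F hF f hf W hU M
  obtain ⟨A', hA', hpts⟩ := points2 (κ := κ) (L := B.functionField) (M := M) d F hF g W A hA
  obtain ⟨Λ', hΛ', hΛ2, hfin'⟩ := hfin A' hA'
  refine ⟨{W | (∃ W' ∈ Λ', W = desc B.functionField g W') ∧
    Module.finrank B.functionField W = 2}, ?_, ?_, ?_⟩
  · refine (hΛ'.image (desc B.functionField g)).subset ?_
    rintro _ ⟨⟨W', hW', rfl⟩, -⟩
    exact ⟨W', hW', rfl⟩
  · rintro _ ⟨⟨W', hW', rfl⟩, h2⟩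
    exact ⟨h2, W', (hΛ2 W' hW').2, (hΛ2 W' hW').1, rfl⟩
  · refine hcore _ ?_
    have hS1 := hpts (fun y => Q' y ∧ ∀ W' ∈ Λ', y ∉ W') (fun i₀ => (hfin' i₀).subset (by
      rintro y ⟨h1, ⟨h2, h3⟩, h4⟩
      exact ⟨h1, h2, h3, h4⟩))
    have hS2 : (⋃ W' ∈ {W' ∈ Λ' | Module.finrank B.functionField (desc B.functionField g W') ≤ 1},
        {x : ℙ B.functionField (Fin (N + 1) → B.functionField) |
          x.rep ∈ desc B.functionField g W'}).Finite := by
      refine Set.Finite.biUnion (hΛ'.subset fun W' h => h.1) ?_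
      rintro W' ⟨-, h⟩
      exact finite_small _ h
    refine (hS1.union hS2).subset ?_
    rintro x ⟨⟨hQx, hxΛ⟩, hx⟩
    by_cases hex : ∃ W' ∈ Λ', x.rep ∈ desc B.functionField g W'
    · right
      obtain ⟨W', hW', hxW⟩ := hex
      have h3 : Module.finrank B.functionField (desc B.functionField g W') ≠ 2 := by
        intro h4
        exact hxΛ _ ⟨⟨W', hW', rfl⟩, h4⟩ hxW
      have h4 := (finrank_desc_le (K := B.functionField) g W').trans (hΛ2 W' hW').1
      refine Set.mem_biUnion (x := W') ⟨hW', ?_⟩ hxW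
      omega
    · left
      push Not at hex
      refine ⟨fun i₀ hi₀ => ⟨hQ _ hQx i₀ hi₀, fun W' hW' hmem => hex W' hW' ?_⟩, hx⟩
      rw [mem_desc]
      have h5 := W'.smul_mem ((g⁻¹ : GL (Fin (N + 1)) M).1.mulVec
        (fun l => algebraMap B.functionField M (x.rep l)) i₀) hmem
      convert h5 using 1
      funext i
      rw [Pi.smul_apply, smul_eq_mul, mul_div_cancel₀ _ hi₀]

end Pool.Agent.Helper10.LN
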