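import Pool.Agent.Helper10.LN.ArithInput

/-! # LN-L1: a finite set and finitely many lines, one form -/

set_option autoImplicit false

open AlgebraicGeometry CategoryTheory CategoryTheory.Limits MvPolynomial

namespace Pool.Agent.Helper10.LN

open scoped BigOperators LinearAlgebra.Projectivization
open Pool.Agent.Helper8.LG hiding coeffField
open Pool.Agent.Helper10.LB

attribute [local instance] MvPolynomial.gradedAlgebra

universe u v

/-- descent of `F = 0` on a subspace -/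
theorem eval_desc {K M : Type*} [Field K] [Field M] [Algebra K M] {N : ℕ}
    {g : GL (Fin (N + 1)) M} (F : MvPolynomial (Fin (N + 1)) K)
    (W' : Submodule M (Fin (N + 1) → M))
    (h : ∀ y ∈ W', eval y (subst (g : Matrix _ _ M) F) = 0) :
    ∀ x ∈ desc K g W', eval x F = 0 := by
  intro x hx
  have h6 := h _ hx
  rw [eval_subst, Matrix.mulVec_mulVec, ← Matrix.GeneralLinearGroup.coe_mul, mul_inv_cancel,
    Matrix.GeneralLinearGroup.coe_one, Matrix.one_mulVec, aeval_def] at h6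
  have h7 := eval₂_comp_left (algebraMap K M) (RingHom.id K) x F
  have h8 : algebraMap K M (eval x F) = 0 := h7.trans h6
  exact (map_eq_zero_iff _ (algebraMap K M).injective).1 h8

set_option maxHeartbeats 400000 in
/-- the closed case -/
theorem lines_closed {κ : Type*} [CommRing κ] {B : Scheme.{u}} [IsIntegral B]
    [Algebra κ B.functionField]
    (V : B.Opens) [Nonempty V] (hV : IsAffineOpen V) (A₀ : Subalgebra κ B.functionField)
    (hA₀ : A₀.FG) (hVA : ∀ b : Γ(B, V), B.germToFunctionField V b ∈ A₀)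
    {U : Scheme.{u}} (π : U ⟶ B) [IsSeparated π] [LocallyOfFiniteType π] [QuasiCompact π]
    {N : ℕ} (F : MvPolynomial (Fin (N + 1)) B.functionField)
    (f : genFib π ⟶ PN N B.functionField) (hf : f ≫ PN.toSpec N _ = pullback.snd _ _)
    [LocallyQuasiFinite f]
    (M : Type v) [Field M] [Algebra B.functionField M] [Algebra κ M]
    [IsScalarTower κ B.functionField M] (g : GL (Fin (N + 1)) M)
    (F' : MvPolynomial (Fin (N + 1)) M) (hF' : F' = subst (g : Matrix _ _ M) F)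
    (Q' : (Fin (N + 1) → M) → Prop) (X : Prop)
    (hfin : ∃ Λ' : Set (Submodule M (Fin (N + 1) → M)),
      Λ'.Finite ∧ (∀ W' ∈ Λ', Module.finrank M W' ≤ 2 ∧
        (∀ y ∈ W', eval y F' = 0) ∧ X) ∧ ∀ i₀ : Fin (N + 1),
        {y : Fin (N + 1) → M | y i₀ = 1 ∧ Q' y ∧ (∀ W' ∈ Λ', y ∉ W')}.Finite)
    (Q : (Fin (N + 1) → B.functionField) → Prop)
    (hQ : ∀ x, Q x → ∀ i₀,
      (g⁻¹ : GL (Fin (N + 1)) M).1.mulVec (fun l => algebraMap B.functionField M (x l)) i₀ ≠ 0 →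
      Q' fun i => (g⁻¹ : GL (Fin (N + 1)) M).1.mulVec
        (fun l => algebraMap B.functionField M (x l)) i /
          (g⁻¹ : GL (Fin (N + 1)) M).1.mulVec
            (fun l => algebraMap B.functionField M (x l)) i₀) :
    ∃ Λ : Set (Submodule B.functionField (Fin (N + 1) → B.functionField)), Λ.Finite ∧
      (∀ W ∈ Λ, Module.finrank B.functionField W = 2 ∧ (∀ x ∈ W, eval x F = 0) ∧ X) ∧
      {σ : B ⟶ U | ∃ hσ : σ ≫ π = 𝟙 B, ∀ (t : Spec B.functionField)
        (x : Fin (N + 1) → B.functionField), IsCoord (f (genPt π σ hσ t)) x →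
          Q x ∧ ∀ W ∈ Λ, x ∉ W}.Finite := by
  classical
  subst hF'
  obtain ⟨Λ', hΛ', hΛ2, hfin'⟩ := hfin
  have h15 := sections_lines (κ := κ) (r := 0) V hV A₀ hA₀ hVA π Fin.elim0
    (fun i => i.elim0) (fun i => i.elim0) (fun i => i.elim0) f hf ∅
    (fun i => i.elim0) M g Q'
    (fun W' => (∀ y ∈ W', eval y (subst (g : Matrix _ _ M) F) = 0) ∧ X)
    (fun A hA => ⟨Λ', hΛ', hΛ2, fun i₀ => (hfin' i₀).subset (by
      rintro y ⟨h1, h2, h3, -⟩
      exact ⟨h1, h2, h3⟩)⟩) Q hQ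
  obtain ⟨Λ, h1, h2, h3⟩ := h15
  refine ⟨Λ, h1, fun W hW => ?_, h3⟩
  obtain ⟨h4, W', ⟨h5, h6⟩, -, rfl⟩ := h2 W hW
  exact ⟨h4, eval_desc F W' h5, h6⟩

/-- The hypersurface `F = 0` meets the line `W` in at most two points over an algebraic closure:
among any three such points two are proportional. -/
def MeetsTwice {K : Type*} [Field K] {N : ℕ} (F : MvPolynomial (Fin (N + 1)) K)
    (W : Submodule K (Fin (N + 1) → K)) : Prop :=
  ∀ x : Fin 3 → Fin (N + 1) → AlgebraicClosure K, (∀ j, x j ≠ 0) →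
    (∀ j, x j ∈ Submodule.span (AlgebraicClosure K)
      ((fun (y : Fin (N + 1) → K) l => algebraMap K (AlgebraicClosure K) (y l)) '' W)) →
    (∀ j, aeval (x j) F = 0) → ∃ j j', j ≠ j' ∧ ∃ c : AlgebraicClosure K, x j = c • x j'

theorem MeetsTwice.of_twoZeros {K : Type*} [Field K] {N : ℕ} {F : MvPolynomial (Fin (N + 1)) K}
    {W : Submodule K (Fin (N + 1) → K)}
    (h : TwoZeros (fun _ : Fin 1 => F) Finset.univ W) : MeetsTwice F W :=
  fun x h0 h1 h2 => h x h0 h1 fun j => ⟨0, Finset.mem_univ _, h2 j⟩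

set_option maxHeartbeats 400000 in
/-- the open case, with a condition on the lines -/
theorem lines_open_aux {κ : Type*} [CommRing κ] {B : Scheme.{u}} [IsIntegral B]
    [Algebra κ B.functionField]
    (V : B.Opens) [Nonempty V] (hV : IsAffineOpen V) (A₀ : Subalgebra κ B.functionField)
    (hA₀ : A₀.FG) (hVA : ∀ b : Γ(B, V), B.germToFunctionField V b ∈ A₀)
    {U : Scheme.{u}} (π : U ⟶ B) [IsSeparated π] [LocallyOfFiniteType π] [QuasiCompact π]
    {N d : ℕ} (hd : 0 < d) (F : MvPolynomial (Fin (N + 1)) B.functionField)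
    (hF : F.IsHomogeneous d)
    (f : genFib π ⟶ PN N B.functionField) (hf : f ≫ PN.toSpec N _ = pullback.snd _ _)
    [LocallyQuasiFinite f] (hU : ∀ z : genFib π, NonVanishing (f z) F)
    (M : Type v) [Field M] [Algebra B.functionField M] [Algebra κ M]
    [IsScalarTower κ B.functionField M] (g : GL (Fin (N + 1)) M)
    (F' : MvPolynomial (Fin (N + 1)) M) (hF' : F' = subst (g : Matrix _ _ M) F)
    (Q' : (Fin (N + 1) → M) → Prop) (R : Submodule M (Fin (N + 1) → M) → Prop)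
    (hfin : ∀ A : Subalgebra κ M, A.FG → ∃ Λ' : Set (Submodule M (Fin (N + 1) → M)),
      Λ'.Finite ∧ (∀ W' ∈ Λ', Module.finrank M W' ≤ 2 ∧ R W') ∧ ∀ i₀ : Fin (N + 1),
        {y : Fin (N + 1) → M | y i₀ = 1 ∧ Q' y ∧ (∀ W' ∈ Λ', y ∉ W') ∧
          eval y F' ≠ 0 ∧ ∀ J : Sym (Fin (N + 1)) d, mon y J / eval y F' ∈ A}.Finite)
    (Q : (Fin (N + 1) → B.functionField) → Prop)
    (hQ : ∀ x, Q x → ∀ i₀,
      (g⁻¹ : GL (Fin (N + 1)) M).1.mulVec (fun l => algebraMap B.functionField M (x l)) i₀ ≠ 0 →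
      Q' fun i => (g⁻¹ : GL (Fin (N + 1)) M).1.mulVec
        (fun l => algebraMap B.functionField M (x l)) i /
          (g⁻¹ : GL (Fin (N + 1)) M).1.mulVec
            (fun l => algebraMap B.functionField M (x l)) i₀) :
    ∃ Λ : Set (Submodule B.functionField (Fin (N + 1) → B.functionField)), Λ.Finite ∧
      (∀ W ∈ Λ, Module.finrank B.functionField W = 2 ∧
        ∃ W' : Submodule M (Fin (N + 1) → M), R W' ∧ Module.finrank M W' ≤ 2 ∧
          W = desc B.functionField g W') ∧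
      {σ : B ⟶ U | ∃ hσ : σ ≫ π = 𝟙 B, ∀ (t : Spec B.functionField)
        (x : Fin (N + 1) → B.functionField), IsCoord (f (genPt π σ hσ t)) x →
          Q x ∧ ∀ W ∈ Λ, x ∉ W}.Finite := by
  classical
  subst hF'
  refine sections_lines (κ := κ) (r := 1) V hV A₀ hA₀ hVA π (fun _ => d)
    (fun _ => hd) (fun _ => F) (fun _ => hF) f hf Finset.univ (fun _ _ => hU) M g Q' R ?_ Q hQ
  intro A hA
  obtain ⟨Λ', hΛ', hΛ2, hfin'⟩ := hfin A hA
  refine ⟨Λ', hΛ', hΛ2, fun i₀ => (hfin' i₀).subset ?_⟩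
  rintro y ⟨h1, h2, h3, h4⟩
  exact ⟨h1, h2, h3, h4 0 (Finset.mem_univ _)⟩

/-- from fields of constants to the integers, one form -/
theorem arith_one {k₀ M : Type*} [Field k₀] [Field M] [CharZero M] [Algebra k₀ M] {N d : ℕ}
    (F : MvPolynomial (Fin (N + 1)) M) (hF : F.IsHomogeneous d)
    (Q' : (Fin (N + 1) → M) → Prop)
    (hfin : ∀ A : Subalgebra k₀ M, A.FG → ∃ Λ' : Set (Submodule M (Fin (N + 1) → M)),
      Λ'.Finite ∧ (∀ W' ∈ Λ', Module.finrank M W' ≤ 2) ∧ ∀ i₀ : Fin (N + 1),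
        {y : Fin (N + 1) → M | y i₀ = 1 ∧ Q' y ∧ (∀ W' ∈ Λ', y ∉ W') ∧
          eval y F ≠ 0 ∧ ∀ J : Sym (Fin (N + 1)) d, mon y J / eval y F ∈ A}.Finite)
    (A : Subalgebra ℤ M) (hA : A.FG) :
    ∃ Λ' : Set (Submodule M (Fin (N + 1) → M)),
      Λ'.Finite ∧ (∀ W' ∈ Λ', Module.finrank M W' ≤ 2 ∧
        TwoZeros (fun _ : Fin 1 => F) Finset.univ W') ∧
      ∀ i₀ : Fin (N + 1),
        {y : Fin (N + 1) → M | y i₀ = 1 ∧ Q' y ∧ (∀ W' ∈ Λ', y ∉ W') ∧
          eval y F ≠ 0 ∧ ∀ J : Sym (Fin (N + 1)) d, mon y J / eval y F ∈ A}.Finite := by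
  obtain ⟨Λ', h1, h2, h3⟩ := arith_input (r := 1) (fun _ => d) (fun _ => F) (fun _ => hF)
    Finset.univ Q' (fun _ => True) (fun A hA => by
      obtain ⟨Λ', h1, h2, h3⟩ := hfin A hA
      refine ⟨Λ', h1, fun W' hW' => ⟨h2 W' hW', trivial⟩, fun i₀ => (h3 i₀).subset ?_⟩
      rintro y ⟨h1, h2, h3, h4⟩
      exact ⟨h1, h2, h3, h4 0 (Finset.mem_univ _)⟩) A hA
  refine ⟨Λ', h1, fun W' hW' => ⟨(h2 W' hW').1, (h2 W' hW').2.2⟩, fun i₀ => (h3 i₀).subset ?_⟩
  rintro y ⟨h1, h2, h3, h4⟩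
  exact ⟨h1, h2, h3, fun _ _ => h4⟩

end Pool.Agent.Helper10.LN
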