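import Pool.Agent.Helper10.LN.Lines1
import Pool.Agent.Helper8.LV.MainV

/-! # LN-MAIN: finitely many lines, over schemes, from an engine -/

set_option autoImplicit false

open AlgebraicGeometry CategoryTheory CategoryTheory.Limits MvPolynomial

namespace Pool.Agent.Helper10.LN

open scoped BigOperators LinearAlgebra.Projectivization
open Pool.Agent.Helper8.LG hiding coeffField
open Pool.Agent.Helper8.LV (eval_div_hom)
open Pool.Agent.Helper10.LB

attribute [local instance] MvPolynomial.gradedAlgebra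

universe u v

/-- the conditions on a vector of coordinates -/
def CondN {k₀ K M : Type*} [Field k₀] [Field K] [Field M] [Algebra k₀ M] [Algebra K M]
    {N n : ℕ} (Cl : Prop) (F : MvPolynomial (Fin (N + 1)) K) (g : GL (Fin (N + 1)) M)
    (P : Fin n → MvPolynomial (Fin (N + 1)) k₀) (w : ℕ) (x : Fin (N + 1) → K) : Prop :=
  (∃ j, aeval ((g⁻¹ : GL (Fin (N + 1)) M).1.mulVec fun l => algebraMap K M (x l)) (P j) ≠ 0) ∧
    Algebra.trdeg k₀ (ratioField k₀
      ((g⁻¹ : GL (Fin (N + 1)) M).1.mulVec fun l => algebraMap K M (x l))) ≤ w ∧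
    (Cl → eval x F = 0)

/-- the conditions on a normalised vector -/
def CondN' {k₀ M : Type*} [Field k₀] [Field M] [Algebra k₀ M]
    {N n : ℕ} (Cl : Prop) (F : MvPolynomial (Fin (N + 1)) M)
    (P : Fin n → MvPolynomial (Fin (N + 1)) k₀) (w : ℕ) (y : Fin (N + 1) → M) : Prop :=
  (∃ j, aeval y (P j) ≠ 0) ∧
    Algebra.trdeg k₀ (IntermediateField.adjoin k₀ (Set.range y)) ≤ w ∧ (Cl → eval y F = 0)

theorem condN {k₀ K M : Type*} [Field k₀] [Field K] [Field M] [Algebra k₀ M] [Algebra K M]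
    {N n : ℕ} (Cl : Prop) (d : ℕ) (b : Fin n → ℕ)
    (F : MvPolynomial (Fin (N + 1)) K) (hF : F.IsHomogeneous d) (g : GL (Fin (N + 1)) M)
    (P : Fin n → MvPolynomial (Fin (N + 1)) k₀) (hP : ∀ j, (P j).IsHomogeneous (b j)) (w : ℕ)
    (x : Fin (N + 1) → K) (h : CondN Cl F g P w x) (i₀ : Fin (N + 1))
    (h0 : (g⁻¹ : GL (Fin (N + 1)) M).1.mulVec (fun l => algebraMap K M (x l)) i₀ ≠ 0) :
    CondN' Cl (subst (g : Matrix _ _ M) F) P w
      fun i => (g⁻¹ : GL (Fin (N + 1)) M).1.mulVec (fun l => algebraMap K M (x l)) i /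
        (g⁻¹ : GL (Fin (N + 1)) M).1.mulVec (fun l => algebraMap K M (x l)) i₀ := by
  classical
  obtain ⟨h1, h2, h3⟩ := h
  obtain ⟨y, hy⟩ : ∃ y : Fin (N + 1) → M,
      y = (g⁻¹ : GL (Fin (N + 1)) M).1.mulVec (fun l => algebraMap K M (x l)) := ⟨_, rfl⟩
  rw [← hy] at h0 h1 h2 ⊢
  have hgy : (g : Matrix (Fin (N + 1)) (Fin (N + 1)) M).mulVec y =
      fun l => algebraMap K M (x l) := by
    rw [hy, Matrix.mulVec_mulVec, ← Matrix.GeneralLinearGroup.coe_mul, mul_inv_cancel,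
      Matrix.GeneralLinearGroup.coe_one, Matrix.one_mulVec]
  have hev : eval y (subst (g : Matrix _ _ M) F) = algebraMap K M (eval x F) := by
    rw [eval_subst, hgy, aeval_def]
    exact (eval₂_comp_left (algebraMap K M) (RingHom.id K) x F).symm
  refine ⟨?_, ?_, fun hCl => ?_⟩
  · obtain ⟨j, hj⟩ := h1
    refine ⟨j, ?_⟩
    have e1 : ∀ z : Fin (N + 1) → M, aeval z (P j) = eval z (map (algebraMap k₀ M) (P j)) :=
      fun z => by rw [aeval_def, MvPolynomial.eval_map]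
    rw [e1, eval_div_hom _ ((hP j).map _), ← e1]
    exact div_ne_zero hj (pow_ne_zero _ h0)
  · refine (trdeg_le_of_injective (IntermediateField.inclusion ?_)
      (IntermediateField.inclusion_injective _)).trans h2
    rw [ratioField]
    refine IntermediateField.adjoin.mono _ _ _ ?_
    rintro _ ⟨i, rfl⟩
    exact ⟨i, i₀, rfl⟩
  · rw [eval_div_hom _ (subst_hom _ _ hF), hev, h3 hCl, map_zero, zero_div]

set_option maxHeartbeats 400000 in
/-- the closed case, over schemes -/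
theorem main_closed (R : CommRingCat.{u}) (B : Scheme.{u}) [IsIntegral B] (s : B ⟶ Spec R)
    [LocallyOfFiniteType s]
    (U : Scheme.{u}) (π : U ⟶ B) [IsSeparated π] [LocallyOfFiniteType π] [QuasiCompact π]
    {N n : ℕ} (d : ℕ) (b : Fin n → ℕ)
    (F : MvPolynomial (Fin (N + 1)) B.functionField) (hF : F.IsHomogeneous d)
    (f : genFib π ⟶ PN N B.functionField) (hf : f ≫ PN.toSpec N _ = pullback.snd _ _)
    [LocallyQuasiFinite f]
    (k₀ : Subfield B.functionField)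
    (hk₀ : ∀ r : R, (Spec.preimage (B.fromSpecStalk (genericPoint B) ≫ s)).hom r ∈ k₀)
    (M : Type v) [Field M] [Algebra B.functionField M]
    (hM : (⊤ : IntermediateField B.functionField M).FG) (g : GL (Fin (N + 1)) M)
    (F' : MvPolynomial (Fin (N + 1)) M) (hFF' : F' = subst (g : Matrix _ _ M) F)
    (P : Fin n → MvPolynomial (Fin (N + 1)) k₀) (hP : ∀ j, (P j).IsHomogeneous (b j)) (w : ℕ)
    (Cl X : Prop)
    (heng : (⊤ : IntermediateField k₀ M).FG → ∃ Λ' : Set (Submodule M (Fin (N + 1) → M)),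
      Λ'.Finite ∧ (∀ W' ∈ Λ', Module.finrank M W' ≤ 2 ∧
        (∀ y ∈ W', eval y F' = 0) ∧ X) ∧ ∀ i₀ : Fin (N + 1),
        {y : Fin (N + 1) → M | y i₀ = 1 ∧ CondN' Cl F' P w y ∧ (∀ W' ∈ Λ', y ∉ W')}.Finite) :
    ∃ Λ : Set (Submodule B.functionField (Fin (N + 1) → B.functionField)), Λ.Finite ∧
      (∀ W ∈ Λ, Module.finrank B.functionField W = 2 ∧ (∀ x ∈ W, eval x F = 0) ∧ X) ∧
      {σ : B ⟶ U | ∃ hσ : σ ≫ π = 𝟙 B, ∀ (t : Spec B.functionField)
        (x : Fin (N + 1) → B.functionField), IsCoord (f (genPt π σ hσ t)) x →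
          CondN Cl F g P w x ∧ ∀ W ∈ Λ, x ∉ W}.Finite := by
  classical
  obtain ⟨V, hVne, hV, ⟨A₀, hA₀, hVA⟩, hKfg⟩ := exists_affine_ft R s k₀ hk₀
  haveI := hVne
  have hfg : (⊤ : IntermediateField k₀ M).FG := wrap_fg_trans hKfg hM
  have hQ : ∀ x, CondN Cl F g P w x → ∀ i₀,
      (g⁻¹ : GL (Fin (N + 1)) M).1.mulVec (fun l => algebraMap B.functionField M (x l)) i₀ ≠ 0 →
      CondN' Cl F' P w fun i => (g⁻¹ : GL (Fin (N + 1)) M).1.mulVec
        (fun l => algebraMap B.functionField M (x l)) i /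
          (g⁻¹ : GL (Fin (N + 1)) M).1.mulVec
            (fun l => algebraMap B.functionField M (x l)) i₀ := by
    intro x hx i₀ h0
    rw [hFF']
    exact condN Cl d b F hF g P hP w x hx i₀ h0
  exact lines_closed (κ := k₀) V hV A₀ hA₀ hVA π F f hf M g F' hFF'
    (CondN' Cl F' P w) X (heng hfg) (CondN Cl F g P w) hQ

set_option maxHeartbeats 400000 in
/-- the open case, over schemes -/
theorem main_open (R : CommRingCat.{u}) (B : Scheme.{u}) [IsIntegral B] (s : B ⟶ Spec R)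
    [LocallyOfFiniteType s] [CharZero B.functionField]
    (U : Scheme.{u}) (π : U ⟶ B) [IsSeparated π] [LocallyOfFiniteType π] [QuasiCompact π]
    {N n : ℕ} (d : ℕ) (hd : 0 < d) (b : Fin n → ℕ)
    (F : MvPolynomial (Fin (N + 1)) B.functionField) (hF : F.IsHomogeneous d)
    (f : genFib π ⟶ PN N B.functionField) (hf : f ≫ PN.toSpec N _ = pullback.snd _ _)
    [LocallyQuasiFinite f] (hU : ∀ z : genFib π, NonVanishing (f z) F)
    (k₀ : Subfield B.functionField)
    (hk₀ : ∀ r : R, (Spec.preimage (B.fromSpecStalk (genericPoint B) ≫ s)).hom r ∈ k₀)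
    (M : Type v) [Field M] [Algebra B.functionField M]
    (hM : (⊤ : IntermediateField B.functionField M).FG) (g : GL (Fin (N + 1)) M)
    (F' : MvPolynomial (Fin (N + 1)) M) (hFF' : F' = subst (g : Matrix _ _ M) F)
    (hF' : F'.IsHomogeneous d)
    (P : Fin n → MvPolynomial (Fin (N + 1)) k₀) (hP : ∀ j, (P j).IsHomogeneous (b j)) (w : ℕ)
    (Cl : Prop)
    (heng : (⊤ : IntermediateField k₀ M).FG → ∀ A : Subalgebra k₀ M, A.FG →
      ∃ Λ' : Set (Submodule M (Fin (N + 1) → M)),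
      Λ'.Finite ∧ (∀ W' ∈ Λ', Module.finrank M W' ≤ 2) ∧ ∀ i₀ : Fin (N + 1),
        {y : Fin (N + 1) → M | y i₀ = 1 ∧ CondN' Cl F' P w y ∧
          (∀ W' ∈ Λ', y ∉ W') ∧ eval y F' ≠ 0 ∧
          ∀ J : Sym (Fin (N + 1)) d, mon y J / eval y F' ∈ A}.Finite) :
    ∃ Λ : Set (Submodule B.functionField (Fin (N + 1) → B.functionField)), Λ.Finite ∧
      (∀ W ∈ Λ, Module.finrank B.functionField W = 2 ∧
        (Algebra.FiniteType ℤ R → MeetsTwice F W)) ∧
      {σ : B ⟶ U | ∃ hσ : σ ≫ π = 𝟙 B, ∀ (t : Spec B.functionField)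
        (x : Fin (N + 1) → B.functionField), IsCoord (f (genPt π σ hσ t)) x →
          CondN Cl F g P w x ∧ ∀ W ∈ Λ, x ∉ W}.Finite := by
  classical
  haveI : CharZero M :=
    charZero_of_injective_algebraMap (algebraMap B.functionField M).injective
  obtain ⟨V, hVne, hV, ⟨A₀, hA₀, hVA⟩, hKfg⟩ := exists_affine_ft R s k₀ hk₀
  haveI := hVne
  have hfg : (⊤ : IntermediateField k₀ M).FG := wrap_fg_trans hKfg hM
  have h14 := heng hfg
  have hQ : ∀ x, CondN Cl F g P w x → ∀ i₀,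
      (g⁻¹ : GL (Fin (N + 1)) M).1.mulVec (fun l => algebraMap B.functionField M (x l)) i₀ ≠ 0 →
      CondN' Cl F' P w fun i => (g⁻¹ : GL (Fin (N + 1)) M).1.mulVec
        (fun l => algebraMap B.functionField M (x l)) i /
          (g⁻¹ : GL (Fin (N + 1)) M).1.mulVec
            (fun l => algebraMap B.functionField M (x l)) i₀ := by
    intro x hx i₀ h0
    rw [hFF']
    exact condN Cl d b F hF g P hP w x hx i₀ h0
  by_cases hR : Algebra.FiniteType ℤ R
  · have := hR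
    obtain ⟨V, hVne, hV, ⟨A₀, hA₀, hVA⟩, -⟩ := exists_affine_ftZ R s
    haveI := hVne
    have h15 := arith_one (k₀ := k₀) F' hF' (CondN' Cl F' P w) h14
    have h21 := lines_open_aux (κ := ℤ) V hV A₀ hA₀ hVA π hd F hF f hf hU M g F' hFF'
      (CondN' Cl F' P w) (fun W' => TwoZeros (fun _ : Fin 1 => F') Finset.univ W') h15
      (CondN Cl F g P w) hQ
    obtain ⟨Λ, h1, h2, h3⟩ := h21
    refine ⟨Λ, h1, fun W hW => ?_, h3⟩
    obtain ⟨h4, W', h5, -, rfl⟩ := h2 W hW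
    refine ⟨h4, fun _ => MeetsTwice.of_twoZeros (twoZeros_desc (fun _ : Fin 1 => F)
      Finset.univ W' ?_)⟩
    rw [← hFF']
    exact h5
  · have h21 := lines_open_aux (κ := k₀) V hV A₀ hA₀ hVA π hd F hF f hf hU M g F' hFF'
      (CondN' Cl F' P w) (fun _ => True) (fun A hA => by
        obtain ⟨Λ', h5, h6, h7⟩ := h14 A hA
        exact ⟨Λ', h5, fun W' hW' => ⟨h6 W' hW', trivial⟩, h7⟩)
      (CondN Cl F g P w) hQ
    obtain ⟨Λ, h1, h2, h3⟩ := h21
    exact ⟨Λ, h1, fun W hW => ⟨(h2 W hW).1, fun h => absurd h hR⟩, h3⟩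

end Pool.Agent.Helper10.LN
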