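import Pool.Agent.Helper10.LN.Lines
import Pool.Agent.Helper10.LB.FieldArith

/-! # LN-TZ: lines with infinitely many integral points over arithmetic rings -/

set_option autoImplicit false

open MvPolynomial

namespace Pool.Agent.Helper10.LN

open scoped BigOperators
open Pool.Agent.Helper8.LG Pool.Agent.Helper10.LB

/-- The hypersurfaces `F i = 0`, `i ∈ I`, have together at most two points on the line `W` over an
algebraic closure: among any three such points two are proportional. -/
def TwoZeros {K : Type*} [Field K] {N r : ℕ} (F : Fin r → MvPolynomial (Fin (N + 1)) K)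
    (I : Finset (Fin r)) (W : Submodule K (Fin (N + 1) → K)) : Prop :=
  ∀ x : Fin 3 → Fin (N + 1) → AlgebraicClosure K, (∀ j, x j ≠ 0) →
    (∀ j, x j ∈ Submodule.span (AlgebraicClosure K)
      ((fun (y : Fin (N + 1) → K) l => algebraMap K (AlgebraicClosure K) (y l)) '' W)) →
    (∀ j, ∃ i ∈ I, aeval (x j) (F i) = 0) →
    ∃ j j', j ≠ j' ∧ ∃ c : AlgebraicClosure K, x j = c • x j'

/-- descent of the property -/
theorem twoZeros_desc {K M : Type*} [Field K] [Field M] [Algebra K M] {N r : ℕ}
    {g : GL (Fin (N + 1)) M} (F : Fin r → MvPolynomial (Fin (N + 1)) K) (I : Finset (Fin r))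
    (W' : Submodule M (Fin (N + 1) → M))
    (h : TwoZeros (fun i => subst (g : Matrix _ _ M) (F i)) I W') :
    TwoZeros F I (desc K g W') := by
  classical
  intro x hx0 hxW hxF
  let φ : AlgebraicClosure K →ₐ[K] AlgebraicClosure M :=
    IsAlgClosed.lift (R := K) (S := AlgebraicClosure K) (M := AlgebraicClosure M)
  let G : Matrix (Fin (N + 1)) (Fin (N + 1)) (AlgebraicClosure M) :=
    (g : Matrix _ _ M).map (algebraMap M (AlgebraicClosure M))
  let G' : Matrix (Fin (N + 1)) (Fin (N + 1)) (AlgebraicClosure M) :=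
    (g⁻¹ : GL (Fin (N + 1)) M).1.map (algebraMap M (AlgebraicClosure M))
  have hGG : G * G' = 1 := by
    have h1 : (g : Matrix (Fin (N + 1)) (Fin (N + 1)) M) * (g⁻¹ : GL (Fin (N + 1)) M).1 = 1 :=
      Units.mul_inv g
    have h2 := congrArg (fun m : Matrix (Fin (N + 1)) (Fin (N + 1)) M =>
      m.map (algebraMap M (AlgebraicClosure M))) h1
    simp only [Matrix.map_mul] at h2
    rw [show G * G' = _ from h2]
    exact Matrix.map_one _ (map_zero _) (map_one _)
  have hback : ∀ y : Fin (N + 1) → AlgebraicClosure M, G.mulVec (G'.mulVec y) = y := by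
    intro y
    rw [Matrix.mulVec_mulVec, hGG, Matrix.one_mulVec]
  -- the new points
  let z : Fin 3 → Fin (N + 1) → AlgebraicClosure M := fun j => G'.mulVec fun l => φ (x j l)
  have hz0 : ∀ j, z j ≠ 0 := by
    intro j hj
    apply hx0 j
    have h1 := hback fun l => φ (x j l)
    rw [show G'.mulVec (fun l => φ (x j l)) = 0 from hj, Matrix.mulVec_zero] at h1
    funext l
    have h2 := congrFun h1 l
    exact (map_eq_zero_iff φ φ.toRingHom.injective).1 h2.symm
  have hzW : ∀ j, z j ∈ Submodule.span (AlgebraicClosure M)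
      ((fun (y : Fin (N + 1) → M) l => algebraMap M (AlgebraicClosure M) (y l)) '' W') := by
    intro j
    have hgen : ∀ y ∈ Submodule.span (AlgebraicClosure K)
        ((fun (y : Fin (N + 1) → K) l => algebraMap K (AlgebraicClosure K) (y l)) ''
          (desc K g W')),
        G'.mulVec (fun l => φ (y l)) ∈ Submodule.span (AlgebraicClosure M)
          ((fun (y : Fin (N + 1) → M) l => algebraMap M (AlgebraicClosure M) (y l)) '' W') := by
      intro y hy
      induction hy using Submodule.span_induction with
      | mem y hy =>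
        obtain ⟨w, hw, rfl⟩ := hy
        refine Submodule.subset_span ⟨(g⁻¹ : GL (Fin (N + 1)) M).1.mulVec
          (fun l => algebraMap K M (w l)), hw, ?_⟩
        funext l
        have h1 := (algebraMap M (AlgebraicClosure M)).map_mulVec
          (g⁻¹ : GL (Fin (N + 1)) M).1 (fun l => algebraMap K M (w l)) l
        simp only
        rw [h1]
        congr 1
        funext l'
        simp only [Function.comp]
        rw [φ.commutes]
        exact (IsScalarTower.algebraMap_apply K M (AlgebraicClosure M) (w l')).symm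
      | zero =>
        have h1 : (fun l => φ ((0 : Fin (N + 1) → AlgebraicClosure K) l)) = 0 := by
          funext l
          exact map_zero _
        rw [h1, Matrix.mulVec_zero]
        exact Submodule.zero_mem _
      | add y y' _ _ hy hy' =>
        have h1 : (fun l => φ ((y + y') l)) = (fun l => φ (y l)) + fun l => φ (y' l) := by
          funext l
          exact map_add _ _ _
        rw [h1, Matrix.mulVec_add]
        exact Submodule.add_mem _ hy hy'
      | smul a y _ hy =>
        have h1 : (fun l => φ ((a • y) l)) = φ a • fun l => φ (y l) := by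
          funext l
          exact map_mul _ _ _
        rw [h1, Matrix.mulVec_smul]
        exact Submodule.smul_mem _ _ hy
    exact hgen _ (hxW j)
  have hzF : ∀ j, ∃ i ∈ I, aeval (z j) (subst (g : Matrix _ _ M) (F i)) = 0 := by
    intro j
    obtain ⟨i, hi, h0⟩ := hxF j
    refine ⟨i, hi, ?_⟩
    have h1 : aeval (z j) (subst (g : Matrix _ _ M) (F i)) =
        aeval (G.mulVec (z j)) (F i) := by
      have h2 := MvPolynomial.comp_aeval_apply
        (f := fun i => ∑ j, MvPolynomial.C ((g : Matrix _ _ M) i j) * MvPolynomial.X j)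
        ((aeval (z j) : MvPolynomial (Fin (N + 1)) M →ₐ[M] AlgebraicClosure M).restrictScalars K)
        (F i)
      refine h2.trans ?_
      congr 1
      congr 1
      funext l
      rw [AlgHom.restrictScalars_apply, map_sum]
      refine Finset.sum_congr rfl fun l' _ => ?_
      rw [map_mul, aeval_X, aeval_C]
      rfl
    rw [h1, show G.mulVec (z j) = fun l => φ (x j l) from hback _]
    have h3 : aeval (fun l => φ (x j l)) (F i) = φ (aeval (x j) (F i)) := by
      have h4 := MvPolynomial.comp_aeval_apply (f := x j) φ (F i)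
      exact h4.symm
    rw [h3, h0, map_zero]
  obtain ⟨j, j', hjj, c, hc⟩ := h z hz0 hzW hzF
  refine ⟨j, j', hjj, ?_⟩
  have h1 : (fun l => φ (x j l)) = c • fun l => φ (x j' l) := by
    have h2 := hback fun l => φ (x j l)
    have h3 := hback fun l => φ (x j' l)
    rw [show G'.mulVec (fun l => φ (x j l)) = z j from rfl, hc, Matrix.mulVec_smul] at h2
    rw [← h2]
    congr 1
  obtain ⟨l, hl⟩ : ∃ l, x j' l ≠ 0 := by
    by_contra hne
    push Not at hne
    exact hx0 j' (funext hne)
  have hl' : φ (x j' l) ≠ 0 := fun h => hl ((map_eq_zero_iff φ φ.toRingHom.injective).1 h)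
  refine ⟨x j l / x j' l, ?_⟩
  funext m
  apply φ.toRingHom.injective
  show φ (x j m) = φ ((x j l / x j' l) • x j' m)
  have e1 : φ (x j l) = c * φ (x j' l) := congrFun h1 l
  have e2 : φ (x j m) = c * φ (x j' m) := congrFun h1 m
  rw [smul_eq_mul, map_mul, map_div₀, e1, e2, mul_div_cancel_right₀ _ hl']

theorem hom_smul {M : Type*} [Field M] {N n : ℕ}
    (F : MvPolynomial (Fin (N + 1)) M) (hF : F.IsHomogeneous n) (c : M)
    (x : Fin (N + 1) → M) : eval (fun i => c * x i) F = c ^ n * eval x F := by
  rw [← form_cf F hF, ← form_cf F hF, form, form, Finset.mul_sum]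
  refine Finset.sum_congr rfl (fun J _ => ?_)
  rw [mon, mon, Multiset.prod_map_mul, Multiset.map_const', Multiset.prod_replicate, Sym.card_coe]
  ring

/-- **A line with infinitely many integral points over a ring of finite type over the integers
meets the divisors in at most two points.** -/
theorem twoZeros_of_infinite {M : Type*} [Field M] [CharZero M] {N r : ℕ} (d : Fin r → ℕ)
    (F : Fin r → MvPolynomial (Fin (N + 1)) M) (hF : ∀ i, (F i).IsHomogeneous (d i))
    (I : Finset (Fin r)) (A : Subalgebra ℤ M) (hA : A.FG) (W' : Submodule M (Fin (N + 1) → M))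
    (hW : Module.finrank M W' ≤ 2) (i₀ : Fin (N + 1))
    (hinf : {y : Fin (N + 1) → M | y i₀ = 1 ∧ y ∈ W' ∧ ∀ i ∈ I, eval y (F i) ≠ 0 ∧
      ∀ J : Sym (Fin (N + 1)) (d i), mon y J / eval y (F i) ∈ A}.Infinite) :
    TwoZeros F I W' := by
  classical
  -- two points
  obtain ⟨v, hv⟩ := hinf.nonempty
  obtain ⟨u, hu⟩ : ∃ u ∈ {y : Fin (N + 1) → M | y i₀ = 1 ∧ y ∈ W' ∧ ∀ i ∈ I, eval y (F i) ≠ 0 ∧
      ∀ J : Sym (Fin (N + 1)) (d i), mon y J / eval y (F i) ∈ A}, u ≠ v := by
    by_contra hne
    push Not at hne
    exact hinf ((Set.finite_singleton v).subset fun y hy => hne y hy)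
  obtain ⟨hu, huv⟩ := hu
  obtain ⟨l₀, hl₀⟩ : ∃ l, u l ≠ v l := by
    by_contra hne
    push Not at hne
    exact huv (funext hne)
  have hu1 : u i₀ = 1 := hu.1
  have hv1 : v i₀ = 1 := hv.1
  have hpi : u i₀ * v l₀ - u l₀ * v i₀ ≠ 0 := by
    rw [hu1, hv1, one_mul, mul_one]
    exact sub_ne_zero.2 hl₀.symm
  have hind : LinearIndependent M ![u, v] := by
    rw [LinearIndependent.pair_iff]
    intro s t hst
    have h1 := congrFun hst i₀
    have h2 := congrFun hst l₀
    simp only [Pi.add_apply, Pi.smul_apply, smul_eq_mul, Pi.zero_apply, hu1, hv1, mul_one]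
      at h1 h2
    have h3 : s * (u l₀ - v l₀) = 0 := by linear_combination h2 - v l₀ * h1
    have h4 : s = 0 := (mul_eq_zero.1 h3).resolve_right (sub_ne_zero.2 hl₀)
    exact ⟨h4, by rw [h4, zero_add] at h1; exact h1⟩
  have hspan : W' ≤ Submodule.span M ({u, v} : Set (Fin (N + 1) → M)) := by
    have h1 : Submodule.span M ({u, v} : Set (Fin (N + 1) → M)) ≤ W' := by
      rw [Submodule.span_le]
      rintro y (rfl | rfl)
      · exact hu.2.1
      · exact hv.2.1
    have h2 : Module.finrank M (Submodule.span M ({u, v} : Set (Fin (N + 1) → M))) = 2 := by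
      have h3 := finrank_span_eq_card hind
      have h4 : Set.range ![u, v] = ({u, v} : Set (Fin (N + 1) → M)) := by
        ext y
        simp [eq_comm, or_comm]
      rw [h4] at h3
      exact h3
    exact (Submodule.eq_of_le_of_finrank_le h1 (by rw [h2]; exact hW)).ge
  -- the polynomial
  set a : (i : Fin r) → Sym (Fin (N + 1)) (d i) → M := fun i => cf (d i) (F i) with ha
  have hform : ∀ i y, form (a i) y = eval y (F i) := fun i y => form_cf _ (hF i) y
  obtain ⟨h, h0, hdvd, hdeg⟩ : ∃ h : Polynomial M, h ≠ 0 ∧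
      (∀ i ∉ Iᶜ, ∃ n, lf (a i) u v ∣ h ^ n) ∧ h.natDegree < 3 := by
    by_contra hne
    push Not at hne
    refine hinf ((line_arith a Iᶜ A hA u v i₀ l₀ hpi (fun i hi => ?_) (fun h h0 hh => ?_)
      i₀).subset ?_)
    · rw [Finset.mem_compl, not_not] at hi
      rw [hform]
      exact (hv.2.2 i hi).1
    · exact hne h h0 hh
    · rintro y ⟨hy1, hyW, hy⟩
      refine ⟨hy1, fun i hi => ?_, ?_⟩
      · rw [Finset.mem_compl, not_not] at hi
        rw [hform]
        exact hy i hi
      · obtain ⟨s, t, hst⟩ := Submodule.mem_span_pair.1 (hspan hyW)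
        refine ⟨s, t, fun l => ?_⟩
        rw [← hst]
        rfl
  intro x hx0 hxW hxF
  -- coordinates on the line
  have hcoord : ∀ j, ∃ s t : AlgebraicClosure M, ∀ l,
      x j l = s * algebraMap M _ (u l) + t * algebraMap M _ (v l) := by
    intro j
    have hgen : ∀ y ∈ Submodule.span (AlgebraicClosure M)
        ((fun (y : Fin (N + 1) → M) l => algebraMap M (AlgebraicClosure M) (y l)) '' W'),
        ∃ s t : AlgebraicClosure M, ∀ l,
          y l = s * algebraMap M _ (u l) + t * algebraMap M _ (v l) := by
      intro y hy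
      induction hy using Submodule.span_induction with
      | mem y hy =>
        obtain ⟨w, hw, rfl⟩ := hy
        obtain ⟨s, t, hst⟩ := Submodule.mem_span_pair.1 (hspan hw)
        refine ⟨algebraMap M _ s, algebraMap M _ t, fun l => ?_⟩
        simp only
        rw [← hst, Pi.add_apply, Pi.smul_apply, Pi.smul_apply, smul_eq_mul, smul_eq_mul, map_add,
          map_mul, map_mul]
      | zero => exact ⟨0, 0, fun l => by simp⟩
      | add y y' _ _ hy hy' =>
        obtain ⟨s, t, hst⟩ := hy
        obtain ⟨s', t', hst'⟩ := hy'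
        refine ⟨s + s', t + t', fun l => ?_⟩
        rw [Pi.add_apply, hst, hst']
        ring
      | smul c y _ hy =>
        obtain ⟨s, t, hst⟩ := hy
        refine ⟨c * s, c * t, fun l => ?_⟩
        rw [Pi.smul_apply, smul_eq_mul, hst]
        ring
    exact hgen _ (hxW j)
  choose s t hst using hcoord
  have hs : ∀ j, s j ≠ 0 := by
    intro j hsj
    obtain ⟨i, hi, h1⟩ := hxF j
    have h2 : x j = fun l => t j * algebraMap M (AlgebraicClosure M) (v l) := by
      funext l
      rw [hst j l, hsj, zero_mul, zero_add]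
    have ht : t j ≠ 0 := by
      intro ht
      apply hx0 j
      rw [h2, ht]
      funext l
      exact zero_mul _
    have h3 : aeval (fun l => t j * algebraMap M (AlgebraicClosure M) (v l)) (F i) =
        t j ^ d i * algebraMap M (AlgebraicClosure M) (eval v (F i)) := by
      have e1 : ∀ y : Fin (N + 1) → AlgebraicClosure M,
          aeval y (F i) = eval y (map (algebraMap M (AlgebraicClosure M)) (F i)) := fun y => by
        rw [aeval_def, MvPolynomial.eval_map]
      rw [e1]
      have h4 := hom_smul (map (algebraMap M (AlgebraicClosure M)) (F i)) (hF i |>.map _) (t j)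
        (fun l => algebraMap M (AlgebraicClosure M) (v l))
      rw [h4]
      congr 1
      rw [MvPolynomial.eval_map]
      exact (MvPolynomial.eval₂_comp_left (algebraMap M (AlgebraicClosure M)) (RingHom.id M) v
        (F i)).symm
    rw [h2, h3] at h1
    rcases mul_eq_zero.1 h1 with h4 | h4
    · exact pow_ne_zero _ ht h4
    · exact (hv.2.2 i hi).1 ((map_eq_zero_iff _ (algebraMap M (AlgebraicClosure M)).injective).1 h4)
  -- the roots
  set ψ : M →+* AlgebraicClosure M := algebraMap M (AlgebraicClosure M) with hψ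
  have hroot : ∀ j, t j / s j ∈ (h.map ψ).roots := by
    intro j
    have hmap0 : h.map ψ ≠ 0 := (Polynomial.map_ne_zero_iff ψ.injective).2 h0
    rw [Polynomial.mem_roots hmap0]
    obtain ⟨i, hi, h1⟩ := hxF j
    obtain ⟨n, hn⟩ := hdvd i (by rwa [Finset.mem_compl, not_not])
    have h2 : (lf (a i) u v).map ψ ∣ (h.map ψ) ^ n := by
      rw [← Polynomial.map_pow]
      exact Polynomial.map_dvd ψ hn
    have h3 : ((lf (a i) u v).map ψ).eval (t j / s j) = 0 := by
      rw [lf_map, lf_eval]
      have e1 : (fun J => ψ (a i J)) = cf (d i) (map ψ (F i)) := by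
        funext J
        exact (MvPolynomial.coeff_map ψ (F i) _).symm
      rw [e1, form_cf _ ((hF i).map ψ)]
      have e2 : x j = fun l => s j * (ψ (u l) + t j / s j * ψ (v l)) := by
        funext l
        rw [hst j l]
        field_simp [hs j]
      have e3 : aeval (x j) (F i) = eval (x j) (map ψ (F i)) := by
        rw [aeval_def, MvPolynomial.eval_map]
      rw [e3, e2, hom_smul _ ((hF i).map ψ)] at h1
      exact (mul_eq_zero.1 h1).resolve_left (pow_ne_zero _ (hs j))
    obtain ⟨r, hr⟩ := h2
    have h4 : ((h.map ψ) ^ n).eval (t j / s j) = 0 := by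
      rw [hr, Polynomial.eval_mul, h3, zero_mul]
    rw [Polynomial.eval_pow] at h4
    exact eq_zero_of_pow_eq_zero h4
  obtain ⟨j, -, j', -, hjj, hjt⟩ : ∃ j ∈ (Finset.univ : Finset (Fin 3)),
      ∃ j' ∈ (Finset.univ : Finset (Fin 3)), j ≠ j' ∧ t j / s j = t j' / s j' := by
    refine Finset.exists_ne_map_eq_of_card_lt_of_maps_to
      (t := (h.map ψ).roots.toFinset) ?_ (fun j _ => Multiset.mem_toFinset.2 (hroot j))
    have h5 : (h.map ψ).roots.toFinset.card ≤ h.natDegree :=
      (Multiset.toFinset_card_le _).trans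
        ((Polynomial.card_roots' _).trans Polynomial.natDegree_map_le)
    rw [Finset.card_univ, Fintype.card_fin]
    omega
  refine ⟨j, j', hjj, s j / s j', ?_⟩
  have h6 : t j * s j' = t j' * s j := by
    rw [div_eq_div_iff (hs j) (hs j')] at hjt
    exact hjt
  funext l
  rw [Pi.smul_apply, smul_eq_mul, hst j l, hst j' l]
  have h7 := hs j'
  field_simp
  linear_combination (algebraMap M (AlgebraicClosure M)) (v l) * h6

end Pool.Agent.Helper10.LN
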